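import Pool.Agent.N754.LG.Stm2

/-!
Endomorphisms of algebraically closed fields moving an element (project LG of helper754, by
helper543).
-/

set_option autoImplicit false

open MvPolynomial

namespace Pool.Agent.N543.LG

open Pool.Agent.N754.LG (AUT)

theorem ext_lift {R S M : Type} [CommRing R] [IsDomain R] [Field S] [Field M] [IsAlgClosed M]
    [Algebra R S] [Algebra.IsAlgebraic R S] (hi : Function.Injective (algebraMap R S))
    (j : R →+* M) (hj : Function.Injective j) : ∃ σ : S →+* M, ∀ r, σ (algebraMap R S r) = j r := by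
  let _ : Algebra R M := j.toAlgebra
  have h1 : Module.IsTorsionFree R S := Module.isTorsionFree_iff_algebraMap_injective.2 hi
  have h2 : Module.IsTorsionFree R M := Module.isTorsionFree_iff_algebraMap_injective.2 hj
  let σ : S →ₐ[R] M := IsAlgClosed.lift
  exact ⟨σ.toRingHom, fun r => σ.commutes r⟩

theorem ext2 {κ Ω ι : Type} [Field κ] [Field Ω] [Algebra κ Ω] [IsAlgClosed Ω] (T : ι → Ω)
    (hT : IsTranscendenceBasis κ T) (j : MvPolynomial ι κ →+* Ω) (hj : Function.Injective j) :
    ∃ σ : Ω →+* Ω, ∀ p, σ (aeval T p) = j p := by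
  have := hT.isAlgebraic
  obtain ⟨σ, hσ⟩ := ext_lift (R := Algebra.adjoin κ (Set.range T)) (S := Ω) (M := Ω)
    Subtype.val_injective (j.comp (hT.1.aevalEquiv.symm : _ →+* MvPolynomial ι κ))
    (hj.comp hT.1.aevalEquiv.symm.injective)
  refine ⟨σ, fun p => ?_⟩
  have h1 := hσ (hT.1.aevalEquiv p)
  rw [hT.1.algebraMap_aevalEquiv] at h1
  rw [h1]
  simp

/-- Endomorphisms of algebraically closed fields moving an element. -/
theorem aut : AUT := by
  intro k₀ Ω _ _ _ _ _ x hx
  by_cases hxa : x ∈ algebraicClosure k₀ Ω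
  · -- an algebraic element
    have hg : IsGalois k₀ (algebraicClosure k₀ Ω) := by
      have : Normal k₀ (algebraicClosure k₀ Ω) := IsAlgClosure.normal k₀ _
      exact ⟨⟩
    have h1 : (⟨x, hxa⟩ : algebraicClosure k₀ Ω) ∉
        (⊥ : IntermediateField k₀ (algebraicClosure k₀ Ω)) := by
      rw [IntermediateField.mem_bot]
      rintro ⟨c, hc⟩
      exact hx ⟨c, congrArg Subtype.val hc⟩
    rw [InfiniteGalois.mem_bot_iff_fixed] at h1
    push Not at h1
    obtain ⟨τ, hτ⟩ := h1
    obtain ⟨t, hT⟩ := exists_isTranscendenceBasis (algebraicClosure k₀ Ω) Ω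
    have hinj : Function.Injective
        (aeval (fun i : t => (i : Ω)) : MvPolynomial t (algebraicClosure k₀ Ω) →ₐ[_] Ω) := hT.1
    have hinj2 : Function.Injective
        (MvPolynomial.map (τ : algebraicClosure k₀ Ω →+* algebraicClosure k₀ Ω) :
          MvPolynomial t (algebraicClosure k₀ Ω) →+* MvPolynomial t (algebraicClosure k₀ Ω)) :=
      MvPolynomial.map_injective _ τ.injective
    obtain ⟨σ, hσ⟩ := ext2 (fun i : t => (i : Ω)) hT
      ((aeval (fun i : t => (i : Ω)) : MvPolynomial t (algebraicClosure k₀ Ω) →ₐ[_] Ω).toRingHom.comp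
        (MvPolynomial.map (τ : algebraicClosure k₀ Ω →+* algebraicClosure k₀ Ω)))
      (hinj.comp hinj2)
    have h2 : ∀ c : algebraicClosure k₀ Ω, σ (c : Ω) = (τ c : Ω) := by
      intro c
      have h3 := hσ (C c)
      rw [← MvPolynomial.algebraMap_eq, AlgHom.commutes] at h3
      have h4 : σ (c : Ω) = _ := h3
      rw [h4]
      simp [MvPolynomial.algebraMap_eq]
    refine ⟨{ σ with commutes' := fun c => ?_ }, ?_⟩
    · have h3 := h2 (algebraMap k₀ _ c)
      rw [τ.commutes] at h3
      exact h3
    · intro h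
      apply hτ
      apply Subtype.ext
      rw [← h2]
      exact h
  · -- a transcendental element
    have htr : Transcendental k₀ x := fun h => hxa (mem_algebraicClosure_iff.2 h)
    have hs : AlgebraicIndepOn k₀ id ({x} : Set Ω) := algebraicIndependent_unique_type_iff.2 htr
    obtain ⟨t, hxt, hT⟩ := exists_isTranscendenceBasis_superset hs
    classical
    let x0 : t := ⟨x, hxt rfl⟩
    let θ : MvPolynomial t k₀ →ₐ[k₀] MvPolynomial t k₀ :=
      aeval (fun i => if i = x0 then X i + 1 else X i)
    let θ' : MvPolynomial t k₀ →ₐ[k₀] MvPolynomial t k₀ :=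
      aeval (fun i => if i = x0 then X i - 1 else X i)
    have hθ : θ'.comp θ = AlgHom.id k₀ _ := by
      apply MvPolynomial.algHom_ext
      intro i
      by_cases h : i = x0
      · simp [θ, θ', h]
      · simp [θ, θ', h]
    have hθi : Function.Injective θ := by
      intro p q h
      have h1 := congrArg θ' h
      have h2 := fun r => DFunLike.congr_fun hθ r
      simp only [AlgHom.comp_apply, AlgHom.id_apply] at h2
      rwa [h2, h2] at h1
    have hinj : Function.Injective
        (aeval (fun i : t => (i : Ω)) : MvPolynomial t k₀ →ₐ[k₀] Ω) := hT.1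
    obtain ⟨σ, hσ⟩ := ext2 (fun i : t => (i : Ω)) hT
      ((aeval (fun i : t => (i : Ω)) : MvPolynomial t k₀ →ₐ[k₀] Ω).toRingHom.comp θ.toRingHom)
      (hinj.comp hθi)
    refine ⟨{ σ with commutes' := fun c => ?_ }, ?_⟩
    · have h3 := hσ (C c)
      rw [← MvPolynomial.algebraMap_eq, AlgHom.commutes] at h3
      change σ (algebraMap k₀ Ω c) = _
      rw [h3]
      change aeval (fun i : t => (i : Ω)) (θ (algebraMap k₀ _ c)) = _
      rw [AlgHom.commutes, AlgHom.commutes]
    · have h3 := hσ (X x0)
      rw [aeval_X] at h3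
      intro h
      have h4 : σ x = x := h
      have h5 : (σ (x0 : Ω)) = aeval (fun i : t => (i : Ω)) (θ (X x0)) := h3
      have h6 : θ (X x0) = X x0 + 1 := by simp [θ]
      rw [h6, map_add, aeval_X, map_one] at h5
      have h7 : x + 1 = x := by
        rw [← h5.symm.trans (rfl : σ (x0 : Ω) = σ x)] at h4
        exact h4
      simp at h7

end Pool.Agent.N543.LG
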