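import Pool.Agent.N754.LG.Stm

/-!
The residue field at a place with a transversal regular derivation, and centres of horizontal prime
divisors (project LG of helper754, by helper543).
-/

set_option autoImplicit false

open MvPolynomial FF Pool.Agent.W603.LV

namespace Pool.Agent.N543.LG

open Pool.Agent.W602.GT
open Pool.Agent.N754.LG (RES FP CO)

theorem res_aux {k K : Type} [Field k] [Field K] [Algebra k K] [CharZero k] (P : Place k K)
    (A : Subring K) (E : Derivation k K K) (hE : DerReg P E) (hEA : ∀ a ∈ A, E a ∈ A) {π : K}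
    (hπ : P.ord π = 1) (hEπ : E π ≠ 0) (hEπ0 : P.ord (E π) = 0) :
    ∀ (n : ℕ) (t g h : K), P.Reg t → g ∈ A → h ∈ A → h ≠ 0 → P.ord h = n → t = g / h →
      ∃ g' ∈ A, ∃ h' ∈ A, h' ≠ 0 ∧ P.ord h' = 0 ∧ Ge P 1 (t - g' / h') := by
  intro n
  induction n with
  | zero =>
    intro t g h ht hg hh h0 hn e
    exact ⟨g, hg, h, hh, h0, by exact_mod_cast hn, by rw [e, sub_self]; exact Ge.zero⟩
  | succ n ih =>
    intro t g h ht hg hh h0 hn e
    obtain ⟨u, hu, hu0, -, hlog⟩ := logder_eq P E hπ h0
    have hK : CharZero K := charZero_of_injective_algebraMap (algebraMap k K).injective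
    have hπ0 : π ≠ 0 := by
      rintro rfl
      rw [P.ord_zero] at hπ; omega
    have h1 : Ge P 0 (E u / u) := ge_logder_reg hE hu hu0
    have hz : P.ord h ≠ 0 := by rw [hn]; push_cast; omega
    have hc0 : ((P.ord h : ℤ) : K) ≠ 0 := by exact_mod_cast hz
    have hc1 : P.ord ((P.ord h : ℤ) : K) = 0 := by
      have h2 : ((P.ord h : ℤ) : k) ≠ 0 := by exact_mod_cast hz
      have := P.ord_const h2
      rwa [map_intCast] at this
    have hq : E π / π ≠ 0 := div_ne_zero hEπ hπ0
    have hd0 : ((P.ord h : ℤ) : K) * (E π / π) ≠ 0 := mul_ne_zero hc0 hq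
    have hd1 : P.ord (((P.ord h : ℤ) : K) * (E π / π)) = -1 := by
      rw [P.ord_mul hc0 hq, P.ord_div hEπ hπ0, hc1, hEπ0, hπ]; norm_num
    have hs : E h / h ≠ 0 ∧ P.ord (E h / h) = -1 := by
      rw [hlog]
      by_cases h2 : E u / u = 0
      · rw [h2, zero_add]; exact ⟨hd0, hd1⟩
      · have h3 := h1.resolve_left h2
        have h4 := P.ord_add_eq hd0 h2 (by omega)
        rw [add_comm]
        exact ⟨h4.1, h4.2.trans hd1⟩
    have hEh : E h ≠ 0 := fun h' => hs.1 (by rw [h', zero_div])
    have hEho : P.ord (E h) = n := by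
      have h2 := P.ord_div hEh h0
      rw [hs.2, hn] at h2
      push_cast at h2
      omega
    have hgt : g = t * h := by rw [e]; field_simp
    have ht' : E g / E h - t = h * E t / E h := by
      rw [hgt, E.leibniz]
      simp only [smul_eq_mul]
      field_simp
      ring
    have hge : Ge P 1 (E g / E h - t) := by
      rw [ht']
      have h3 : Ge P (n + 1) (h * E t) := by
        have h5 := (ge_ord P h).mul (hE t ht)
        rw [hn] at h5
        push_cast at h5
        simpa using h5
      have h4 := ge_div hEh h3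
      rw [hEho] at h4
      simpa using h4
    have hreg : P.Reg (E g / E h) := by
      have h3 : Ge P 0 (t + (E g / E h - t)) := Ge.add ht (hge.mono (by norm_num))
      rwa [add_sub_cancel] at h3
    obtain ⟨g', hg', h', hh', h'0, h'1, h'2⟩ :=
      ih (E g / E h) (E g) (E h) hreg (hEA g hg) (hEA h hh) hEh hEho rfl
    refine ⟨g', hg', h', hh', h'0, h'1, ?_⟩
    have h3 := hge.neg.add h'2
    have e2 : -(E g / E h - t) + (E g / E h - g' / h') = t - g' / h' := by ring
    rw [e2] at h3
    exact h3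

/-- The residue field at a place with a transversal regular derivation. -/
theorem res : RES := by
  intro k K _ _ _ _ P A hA hfr E hE hEA π hπ hEπ hEπ0 t ht
  obtain ⟨g, hg, h, hh, h0, e⟩ := hfr t
  have h1 : 0 ≤ P.ord h := (hA h hh).resolve_left h0
  obtain ⟨n, hn⟩ := Int.eq_ofNat_of_zero_le h1
  exact res_aux P A E hE hEA hπ hEπ hEπ0 n t g h ht hg hh h0 hn e

/-- Reduction of polynomial expressions. -/
theorem red_aeval {k K R ι : Type} [Field k] [Field K] [Algebra k K] (P : Place k K) [Field R]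
    [Algebra R K] [Algebra R P.RF]
    (hR : ∀ c : R, P.Reg (algebraMap R K c) ∧ P.red (algebraMap R K c) = algebraMap R P.RF c)
    (u : ι → K) (hu : ∀ i, P.Reg (u i)) (f : MvPolynomial ι R) :
    P.Reg (aeval u f) ∧ P.red (aeval u f) = aeval (fun i => P.red (u i)) f := by
  induction f using MvPolynomial.induction_on with
  | C c =>
    rw [← MvPolynomial.algebraMap_eq, AlgHom.commutes, AlgHom.commutes]
    exact hR c
  | add f g hf hg =>
    rw [map_add, map_add]
    exact ⟨P.reg_add hf.1 hg.1, by rw [P.red_add hf.1 hg.1, hf.2, hg.2]⟩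
  | mul_X f i hf =>
    rw [map_mul, map_mul, aeval_X, aeval_X]
    exact ⟨P.reg_mul hf.1 (hu i), by rw [P.red_mul hf.1 (hu i), hf.2]⟩

/-- A horizontal prime divisor with regular vector fields has a centre of codimension one. -/
theorem fp (hCO : CO) : FP := by
  intro k K _ _ _ _ w hw κ r b hb htop P hdiv hκ hb0 E hEκ hEb hER hi p q hp hq hcop hpq
  obtain ⟨i0, π, hπ, hEπ, hEπ0⟩ := hi
  obtain ⟨hpp, hqq⟩ := hpq
  have hreg : ∀ x ∈ κ, P.Reg x := by
    intro x hx
    by_cases h : x = 0
    · exact Or.inl h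
    · exact Or.inr (hκ x hx h).ge
  let φ : κ →+* P.RF :=
    { toFun := fun c => P.red (c : K)
      map_one' := P.red_one
      map_mul' := fun a c => P.red_mul (hreg _ a.2) (hreg _ c.2)
      map_zero' := P.red_zero
      map_add' := fun a c => P.red_add (hreg _ a.2) (hreg _ c.2) }
  let _ : Algebra κ P.RF := φ.toAlgebra
  have : IsScalarTower k κ P.RF := IsScalarTower.of_algebraMap_eq (fun c => rfl)
  have hbreg : ∀ i, P.Reg (b i) := fun i => Or.inr (hb0 i).ge
  obtain ⟨x, hx⟩ : ∃ x : Fin r → P.RF, x = fun i => P.red (b i) := ⟨_, rfl⟩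
  have hpol : ∀ f : MvPolynomial (Fin r) κ, P.Reg (aeval b f) ∧ P.red (aeval b f) = aeval x f := by
    intro f
    rw [hx]
    exact red_aeval P (fun c => ⟨hreg _ c.2, rfl⟩) b hbreg f
  have hEA : ∀ f : MvPolynomial (Fin r) κ, ∃ g : MvPolynomial (Fin r) κ,
      E i0 (aeval b f) = aeval b g := by
    intro f
    induction f using MvPolynomial.induction_on with
    | C c =>
      refine ⟨0, ?_⟩
      rw [map_zero, ← MvPolynomial.algebraMap_eq, AlgHom.commutes]
      exact hEκ i0 _ c.2
    | add f g hf hg =>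
      obtain ⟨f', hf⟩ := hf
      obtain ⟨g', hg⟩ := hg
      exact ⟨f' + g', by rw [map_add, map_add, hf, hg, map_add]⟩
    | mul_X f j hf =>
      obtain ⟨f', hf⟩ := hf
      refine ⟨f * (if i0 = j then X j else 0) + X j * f', ?_⟩
      rw [map_mul, aeval_X, (E i0).leibniz, hf, hEb, map_add, map_mul, map_mul, aeval_X,
        smul_eq_mul, smul_eq_mul]
      congr 2
      split_ifs
      · rw [aeval_X]
      · rw [map_zero]
  obtain ⟨A, hA⟩ : ∃ A : Subring K,
      A = (aeval b : MvPolynomial (Fin r) κ →ₐ[κ] K).toRingHom.range := ⟨_, rfl⟩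
  have mA : ∀ y, y ∈ A ↔ ∃ f : MvPolynomial (Fin r) κ, aeval b f = y := by
    intro y; rw [hA]; exact Iff.rfl
  have hfr : ∀ y : K, ∃ g ∈ A, ∃ h ∈ A, h ≠ 0 ∧ y = g / h := by
    intro y
    have h1 : y ∈ IntermediateField.adjoin κ (Set.range b) := by rw [htop]; trivial
    obtain ⟨f, s, hy⟩ := (IntermediateField.mem_adjoin_range_iff κ b y).1 h1
    by_cases hs : aeval b s = 0
    · exact ⟨0, A.zero_mem, 1, A.one_mem, one_ne_zero, by rw [hy, hs]; simp⟩
    · exact ⟨_, (mA _).2 ⟨f, rfl⟩, _, (mA _).2 ⟨s, rfl⟩, hs, hy⟩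
  have hres : ∀ y : P.RF, ∃ f s : MvPolynomial (Fin r) κ, aeval x s ≠ 0 ∧
      y = aeval x f / aeval x s := by
    intro y
    obtain ⟨t, ht, rfl⟩ := P.red_surjective y
    obtain ⟨g, hg, h, hh, h0, h1, h2⟩ := res k K P A
      (fun a ha => by obtain ⟨f, rfl⟩ := (mA a).1 ha; exact (hpol f).1) hfr (E i0) (hER i0)
      (fun a ha => by
        obtain ⟨f, rfl⟩ := (mA a).1 ha
        obtain ⟨g, hg⟩ := hEA f
        exact (mA _).2 ⟨g, hg.symm⟩) π hπ hEπ hEπ0 t ht
    obtain ⟨f, rfl⟩ := (mA g).1 hg
    obtain ⟨s, rfl⟩ := (mA h).1 hh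
    have hs : P.red (aeval b s) ≠ 0 := P.red_ne_zero h0 h1
    rw [(hpol s).2] at hs
    refine ⟨f, s, hs, ?_⟩
    have hq' : P.Reg (aeval b f / aeval b s) := by
      have h3 : Ge P 0 (t - (t - aeval b f / aeval b s)) := Ge.sub ht (h2.mono (by norm_num))
      rwa [sub_sub_cancel] at h3
    have h4 : P.red (t - aeval b f / aeval b s) = 0 := by
      rw [P.red_eq_zero_iff (h2.mono (by norm_num : (0:ℤ) ≤ 1))]
      rcases h2 with h2 | h2
      · exact Or.inl h2
      · exact Or.inr (by omega)
    rw [P.red_sub ht hq', sub_eq_zero] at h4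
    rw [h4, eq_div_iff hs, ← (hpol s).2, ← (hpol f).2, ← P.red_mul hq' (hpol s).1,
      div_mul_cancel₀ _ h0]
  have halg : Algebra.IsAlgebraic (Algebra.adjoin κ (Set.range x)) P.RF := by
    refine ⟨fun y => ?_⟩
    obtain ⟨f, s, hs, rfl⟩ := hres y
    have hmem : ∀ f : MvPolynomial (Fin r) κ, aeval x f ∈ Algebra.adjoin κ (Set.range x) := by
      intro f
      rw [Algebra.adjoin_range_eq_range_aeval]
      exact ⟨f, rfl⟩
    refine ⟨Polynomial.C ⟨aeval x s, hmem s⟩ * Polynomial.X - Polynomial.C ⟨aeval x f, hmem f⟩,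
      ?_, ?_⟩
    · intro h
      have h1 := congrArg (fun P => Polynomial.coeff P 1) h
      simp only [Polynomial.coeff_sub, Polynomial.coeff_C_mul, Polynomial.coeff_X_one, mul_one,
        Polynomial.coeff_C_succ, sub_zero, Polynomial.coeff_zero] at h1
      exact hs (congrArg Subtype.val h1)
    · rw [map_sub, map_mul, Polynomial.aeval_C, Polynomial.aeval_X, Polynomial.aeval_C]
      change aeval x s * (aeval x f / aeval x s) - aeval x f = 0
      rw [mul_div_cancel₀ _ hs, sub_self]
  have : FaithfulSMul κ P.RF :=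
    (faithfulSMul_iff_algebraMap_injective _ _).mpr (algebraMap κ P.RF).injective
  obtain ⟨t, ht, hbas⟩ := exists_isTranscendenceBasis_subset (R := κ) (Set.range x)
  have hco := hCO κ P.RF r x p q hp hq hcop
    (by rw [← (hpol p).2, P.red_eq_zero_iff (hpol p).1]; exact Or.inr hpp)
    (by rw [← (hpol q).2, P.red_eq_zero_iff (hpol q).1]; exact Or.inr hqq)
  -- the basis has at most `r - 2` elements
  have hfin : Finite t := (Set.finite_range x).subset ht
  have hidx : ∀ y : t, ∃ i, x i = y := fun y => ht y.2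
  choose f hf using hidx
  have hfinj : Function.Injective f := by
    intro y y' h
    apply Subtype.ext
    rw [← hf y, ← hf y', h]
  have hcard : Nat.card t + 2 ≤ r := by
    by_contra hcon
    have key : ∃ i : Fin r, ∀ j, j ≠ i → j ∈ Set.range f := by
      by_cases hs : Function.Surjective f
      · exact ⟨i0, fun j _ => hs j⟩
      · unfold Function.Surjective at hs
        push Not at hs
        obtain ⟨i, hi⟩ := hs
        refine ⟨i, fun j hj => ?_⟩
        by_contra hj'
        apply hcon
        have h1 : Nat.card t = (Set.range f).ncard := by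
          rw [← Set.image_univ, Set.ncard_image_of_injective _ hfinj, Set.ncard_univ]
        have h2 : (Set.range f).ncard + 2 ≤ (Set.univ : Set (Fin r)).ncard := by
          have h3 : (insert i (insert j (Set.range f))).ncard = (Set.range f).ncard + 2 := by
            rw [Set.ncard_insert_of_notMem, Set.ncard_insert_of_notMem hj']
            rw [Set.mem_insert_iff]
            rintro (h | ⟨y, h⟩)
            · exact hj h.symm
            · exact hi y h
          rw [← h3]
          exact Set.ncard_le_ncard (Set.subset_univ _)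
        rw [Set.ncard_univ, Nat.card_eq_fintype_card, Fintype.card_fin] at h2
        omega
    obtain ⟨i, hi⟩ := key
    apply hco i
    have h1 : ∀ j : {j : Fin r // j ≠ i}, ∃ y : t, f y = j.1 := fun j => hi j.1 j.2
    choose g hg using h1
    have h2 : (fun j : {j : Fin r // j ≠ i} => x j.1) = (fun y : t => (y : P.RF)) ∘ g := by
      funext j
      rw [Function.comp_apply, ← hf (g j), hg j]
    rw [h2]
    refine hbas.1.comp g ?_
    intro j j' h
    apply Subtype.ext
    rw [← hg j, ← hg j', h]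
  -- transcendence degrees
  have h1 : Algebra.trdeg k κ + Algebra.trdeg κ K = w := by
    rw [trdeg_add_eq k κ, hw]
  have h2 : (r : Cardinal) ≤ Algebra.trdeg κ K := by
    have := hb.cardinalMk_le_trdeg
    rwa [Cardinal.mk_fin] at this
  have h3 : Algebra.trdeg k κ + Algebra.trdeg κ P.RF = Algebra.trdeg k P.RF :=
    trdeg_add_eq k κ
  have h4 : ((w - 1 : ℕ) : Cardinal) ≤ Algebra.trdeg k P.RF := by
    obtain ⟨u, hu⟩ := hdiv
    have hu1 : ∀ i, P.Reg (u i) := by
      intro i
      have := hu (X i) (X_ne_zero i)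
      rw [aeval_X] at this
      exact Or.inr this.2.ge
    have hu2 : AlgebraicIndependent k (fun i => P.red (u i)) := by
      rw [algebraicIndependent_iff]
      intro F hF
      by_contra hne
      have h5 := hu F hne
      have h6 := P.red_ne_zero h5.1 h5.2
      rw [(red_aeval P (fun c => ⟨P.reg_const c, rfl⟩) u hu1 F).2] at h6
      exact h6 hF
    have := hu2.cardinalMk_le_trdeg
    rwa [Cardinal.mk_fin] at this
  have h5 : Algebra.trdeg κ P.RF = (Nat.card t : ℕ) := by
    rw [← hbas.cardinalMk_eq_trdeg, Nat.cast_card]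
  have hw1 : Algebra.trdeg k κ < Cardinal.aleph0 := by
    refine lt_of_le_of_lt (le_of_le_of_eq ?_ h1) (Cardinal.natCast_lt_aleph0)
    exact le_self_add
  have hw2 : Algebra.trdeg κ K < Cardinal.aleph0 := by
    refine lt_of_le_of_lt (le_of_le_of_eq ?_ h1) (Cardinal.natCast_lt_aleph0)
    exact le_add_self
  obtain ⟨m, hm⟩ := Cardinal.lt_aleph0.1 hw1
  obtain ⟨r', hr'⟩ := Cardinal.lt_aleph0.1 hw2
  rw [hm, hr'] at h1
  rw [hr'] at h2
  rw [hm, h5] at h3
  rw [← h3] at h4
  have g1 : m + r' = w := by exact_mod_cast h1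
  have g2 : r ≤ r' := by exact_mod_cast h2
  have g4 : w - 1 ≤ m + Nat.card t := by exact_mod_cast h4
  omega

end Pool.Agent.N543.LG
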